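import Pool.Agent.N165.CU.Stm

/-!
# The recursion for the numbers of solutions (project CU, part C2)
-/

set_option autoImplicit false
set_option linter.unusedSectionVars false

namespace Pool.Agent.N935.CU

open MvPolynomial Pool.Agent.W427.SMC Pool.Agent.H628R4.TP Pool.Agent.N165.CU

/-- `c` if `P` holds and `0` otherwise -/
noncomputable def ind (P : Prop) (c : ℕ) : ℕ := @ite ℕ P (Classical.propDecidable P) c 0

theorem ind_pos {P : Prop} (h : P) (c : ℕ) : ind P c = c := if_pos h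

theorem ind_neg {P : Prop} (h : ¬ P) (c : ℕ) : ind P c = 0 := if_neg h

theorem card_pre {G H : Type} [AddCommGroup G] [AddCommGroup H] (ψ : G →+ H) (P : H → Prop) :
    Nat.card {g : G // P (ψ g)} = Nat.card {h : ψ.range // P (h : H)} * Nat.card ψ.ker := by
  classical
  let s : ψ.range → G := fun h => h.2.choose
  have hs : ∀ h : ψ.range, ψ (s h) = h := fun h => h.2.choose_spec
  rw [← Nat.card_prod]
  refine Nat.card_congr ⟨fun g => (⟨⟨ψ g.1, ⟨g.1, rfl⟩⟩, g.2⟩,
    ⟨g.1 - s ⟨ψ g.1, ⟨g.1, rfl⟩⟩, by rw [AddMonoidHom.mem_ker, map_sub, hs, sub_self]⟩),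
    fun q => ⟨s q.1.1 + q.2.1, ?_⟩, ?_, ?_⟩
  · have h1 : ψ q.2.1 = 0 := AddMonoidHom.mem_ker.1 q.2.2
    rw [map_add, hs, h1, add_zero]
    exact q.1.2
  · intro g
    apply Subtype.ext
    simp
  · rintro ⟨⟨h, hP⟩, k⟩
    have h1 : ψ k.1 = 0 := AddMonoidHom.mem_ker.1 k.2
    have h2 : ψ (s h + k.1) = h := by rw [map_add, hs, h1, add_zero]
    have h3 : (⟨ψ (s h + k.1), ⟨s h + k.1, rfl⟩⟩ : ψ.range) = h := Subtype.ext h2
    refine Prod.ext (Subtype.ext h3) (Subtype.ext ?_)
    show s h + k.1 - s ⟨ψ (s h + k.1), _⟩ = k.1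
    rw [h3]
    abel

theorem card_pre_surj {G H : Type} [AddCommGroup G] [AddCommGroup H] (ψ : G →+ H)
    (hψ : Function.Surjective ψ) (P : H → Prop) :
    Nat.card {g : G // P (ψ g)} = Nat.card {h : H // P h} * Nat.card ψ.ker := by
  rw [card_pre]
  congr 1
  exact Nat.card_congr ⟨fun h => ⟨h.1.1, h.2⟩, fun h => ⟨⟨h.1, hψ h.1⟩, h.2⟩, fun _ => rfl,
    fun _ => rfl⟩

section

variable (p : ℕ) [Fact p.Prime] (e : ℕ)

/-- the reduction -/
def red : ZMod (p ^ (e + 1)) →+* ZMod (p ^ e) :=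
  ZMod.castHom (pow_dvd_pow p (Nat.le_succ e)) (ZMod (p ^ e))

theorem red_surj : Function.Surjective (red p e) := ZMod.ringHom_surjective _

theorem card_ker_red : Nat.card (red p e).toAddMonoidHom.ker = p := by
  have hp : 0 < p := (Fact.out : p.Prime).pos
  have h1 := card_pre_surj (red p e).toAddMonoidHom (red_surj p e) (fun _ => True)
  have h2 : Nat.card {g : ZMod (p ^ (e + 1)) // True} = p ^ (e + 1) := by
    rw [Nat.card_congr (Equiv.subtypeUnivEquiv (fun _ => trivial)), Nat.card_zmod]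
  have h3 : Nat.card {g : ZMod (p ^ e) // True} = p ^ e := by
    rw [Nat.card_congr (Equiv.subtypeUnivEquiv (fun _ => trivial)), Nat.card_zmod]
  rw [h2, h3] at h1
  exact Nat.eq_of_mul_eq_mul_left (by positivity) (h1.symm.trans (pow_succ p e))

theorem exists_mul {c z : ZMod (p ^ (e + 1))} (hc : c ≠ 0) (hz : red p e z = 0) :
    ∃ b, c * b = z := by
  have hp : p.Prime := Fact.out
  have : NeZero (p ^ (e + 1)) := ⟨(pow_pos hp.pos _).ne'⟩
  -- `z` is a multiple of `p ^ e`
  have hz1 : p ^ e ∣ z.val := by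
    have : ((z.val : ℕ) : ZMod (p ^ e)) = 0 := by
      have h1 : red p e ((z.val : ℕ) : ZMod (p ^ (e + 1))) = ((z.val : ℕ) : ZMod (p ^ e)) :=
        map_natCast _ _
      rw [← h1, ZMod.natCast_zmod_val, hz]
    exact (ZMod.natCast_eq_zero_iff _ _).1 this
  obtain ⟨q, hq⟩ := hz1
  have hz2 : z = (p : ZMod (p ^ (e + 1))) ^ e * q := by
    rw [← ZMod.natCast_zmod_val z, hq]
    push_cast
    rfl
  -- `c` divides `p ^ e`
  have hc0 : c.val ≠ 0 := by
    intro h
    exact hc ((ZMod.val_eq_zero c).1 h)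
  obtain ⟨i, m, hm, hcm⟩ := Nat.exists_eq_pow_mul_and_not_dvd hc0 p hp.ne_one
  have hi : i ≤ e := by
    by_contra hi
    push Not at hi
    have h1 : p ^ (e + 1) ≤ p ^ i := Nat.pow_le_pow_right hp.pos hi
    have h2 : 0 < m := by
      rcases Nat.eq_zero_or_pos m with rfl | h
      · exact absurd (dvd_zero p) hm
      · exact h
    have h3 : p ^ i ≤ c.val := by rw [hcm]; exact Nat.le_mul_of_pos_right _ h2
    have h4 := ZMod.val_lt c
    omega
  have hu : IsUnit (m : ZMod (p ^ (e + 1))) := by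
    rw [ZMod.isUnit_iff_coprime]
    exact Nat.Coprime.pow_right _ ((hp.coprime_iff_not_dvd.2 hm).symm)
  obtain ⟨u, hu⟩ := hu
  have hc2 : c = (p : ZMod (p ^ (e + 1))) ^ i * m := by
    rw [← ZMod.natCast_zmod_val c, hcm]
    push_cast
    rfl
  refine ⟨((u⁻¹ : (ZMod (p ^ (e + 1)))ˣ) : ZMod (p ^ (e + 1))) *
    (p : ZMod (p ^ (e + 1))) ^ (e - i) * q, ?_⟩
  rw [hc2, hz2, ← hu]
  have h5 : (p : ZMod (p ^ (e + 1))) ^ e = (p : ZMod (p ^ (e + 1))) ^ i *
      (p : ZMod (p ^ (e + 1))) ^ (e - i) := by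
    rw [← pow_add]
    congr 1
    omega
  rw [h5]
  have h6 : (u : ZMod (p ^ (e + 1))) * ((u⁻¹ : (ZMod (p ^ (e + 1)))ˣ) : ZMod (p ^ (e + 1))) = 1 :=
    u.mul_inv
  linear_combination (p : ZMod (p ^ (e + 1))) ^ i * (p : ZMod (p ^ (e + 1))) ^ (e - i) * q * h6

/-- the linear form with the coefficients `a` -/
def lin {ι : Type} [Fintype ι] (a : ι → ZMod (p ^ (e + 1))) :
    (ι → ZMod (p ^ (e + 1))) →+ ZMod (p ^ (e + 1)) where
  toFun y := ∑ j, a j * y j
  map_zero' := by simp
  map_add' y z := by simp [mul_add, Finset.sum_add_distrib]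

theorem claim {ι : Type} [Fintype ι] (a : ι → ZMod (p ^ (e + 1))) :
    p * Nat.card {y : ι → ZMod (p ^ (e + 1)) // ∑ j, a j * y j = 0} =
      Nat.card {y : ι → ZMod (p ^ (e + 1)) // red p e (∑ j, a j * y j) = 0} +
      (p - 1) * ind (a = 0) ((p ^ (e + 1)) ^ (Fintype.card ι)) := by
  classical
  have hp : p.Prime := Fact.out
  by_cases ha : a = 0
  · subst ha
    have h1 : Nat.card {y : ι → ZMod (p ^ (e + 1)) //
        ∑ j, (0 : ι → ZMod (p ^ (e + 1))) j * y j = 0} = (p ^ (e + 1)) ^ (Fintype.card ι) := by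
      rw [Nat.card_congr (Equiv.subtypeUnivEquiv (fun _ => by simp)), Nat.card_fun,
        Nat.card_zmod, Nat.card_eq_fintype_card]
    have h2 : Nat.card {y : ι → ZMod (p ^ (e + 1)) //
        red p e (∑ j, (0 : ι → ZMod (p ^ (e + 1))) j * y j) = 0} =
        (p ^ (e + 1)) ^ (Fintype.card ι) := by
      rw [Nat.card_congr (Equiv.subtypeUnivEquiv (fun _ => by simp)), Nat.card_fun,
        Nat.card_zmod, Nat.card_eq_fintype_card]
    rw [h1, h2, ind_pos rfl]
    obtain ⟨q, hq⟩ : ∃ q, p = q + 1 := ⟨p - 1, by have := hp.pos; omega⟩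
    rw [hq, Nat.add_sub_cancel]
    ring
  · rw [ind_neg ha, mul_zero, add_zero]
    obtain ⟨j0, hj0⟩ : ∃ j, a j ≠ 0 := by
      by_contra h
      push Not at h
      exact ha (funext h)
    have h1 := card_pre (lin p e a) (fun z => red p e z = 0)
    have h2 : Nat.card {h : (lin p e a).range // red p e (h : ZMod (p ^ (e + 1))) = 0} = p := by
      conv_rhs => rw [← card_ker_red p e]
      refine Nat.card_congr ⟨fun h => ⟨h.1.1, h.2⟩, fun h => ⟨⟨h.1, ?_⟩, h.2⟩, fun _ => rfl,
        fun _ => rfl⟩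
      obtain ⟨b, hb⟩ := exists_mul p e hj0 (show red p e h.1 = 0 from h.2)
      refine ⟨Pi.single j0 b, ?_⟩
      show ∑ j, a j * (Pi.single j0 b : ι → ZMod (p ^ (e + 1))) j = h.1
      rw [Finset.sum_eq_single j0]
      · rw [Pi.single_eq_same, hb]
      · intro j _ hj
        rw [Pi.single_eq_of_ne hj, mul_zero]
      · intro h
        exact absurd (Finset.mem_univ _) h
    rw [h2] at h1
    have h3 : Nat.card (lin p e a).ker =
        Nat.card {y : ι → ZMod (p ^ (e + 1)) // ∑ j, a j * y j = 0} := rfl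
    rw [h3] at h1
    exact h1.symm

end

/-- the points -/
def spl (B σ κ : Type) : (Option σ ⊕ (κ ⊕ κ) → B) ≃ ((σ → B) × (κ → B)) × (Option κ → B) where
  toFun w := ((fun i => w (Sum.inl (some i)), fun k => w (Sum.inr (Sum.inl k))),
    fun o => match o with
      | none => w (Sum.inl none)
      | some k => w (Sum.inr (Sum.inr k)))
  invFun z := fun v => match v with
    | Sum.inl none => z.2 none
    | Sum.inl (some i) => z.1.1 i
    | Sum.inr (Sum.inl k) => z.1.2 k
    | Sum.inr (Sum.inr k) => z.2 (some k)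
  left_inv w := by
    funext v
    rcases v with (_ | i) | (k | k) <;> rfl
  right_inv z := by
    obtain ⟨⟨x, u⟩, y⟩ := z
    refine Prod.ext rfl ?_
    funext o
    rcases o with _ | k <;> rfl

/-- the coefficients of the linear form -/
noncomputable def cf {B σ κ : Type} [CommRing B] (f : MvPolynomial σ ℤ)
    (z : (σ → B) × (κ → B)) : Option κ → B :=
  fun o => match o with
    | none => aeval z.1 f
    | some k => z.2 k

theorem eval_F {B σ κ : Type} [CommRing B] [Fintype κ] (f : MvPolynomial σ ℤ)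
    (z : ((σ → B) × (κ → B)) × (Option κ → B)) :
    aeval ((spl B σ κ).symm z) (quad (cone f) κ) = ∑ o, cf f z.1 o * z.2 o := by
  rw [Fintype.sum_option]
  unfold quad cone
  simp only [map_add, map_mul, map_sum, aeval_rename, aeval_X, rename_X, rename_rename]
  have h1 : (spl B σ κ).symm z ∘ (Sum.inl ∘ some) = z.1.1 := rfl
  rw [h1]
  have h2 : (spl B σ κ).symm z (Sum.inl none) = z.2 none := rfl
  rw [h2, mul_comm (z.2 none)]
  rfl

theorem card_split {B σ κ : Type} [CommRing B] [Finite B] [Fintype σ] [Fintype κ]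
    [Fintype ((σ → B) × (κ → B))] (f : MvPolynomial σ ℤ) (P : B → Prop) :
    Nat.card {w : Option σ ⊕ (κ ⊕ κ) → B // P (aeval w (quad (cone f) κ))} =
      ∑ z : (σ → B) × (κ → B), Nat.card {y : Option κ → B // P (∑ o, cf f z o * y o)} := by
  rw [← Nat.card_sigma]
  refine Nat.card_congr ?_
  refine ((spl B σ κ).subtypeEquiv (q := fun z => P (∑ o, cf f z.1 o * z.2 o)) ?_).trans
    (Equiv.subtypeProdEquivSigmaSubtype
      (fun (z : (σ → B) × (κ → B)) (y : Option κ → B) => P (∑ o, cf f z o * y o)))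
  intro w
  rw [← eval_F, Equiv.symm_apply_apply]

theorem aeval_red (p : ℕ) [Fact p.Prime] (e : ℕ) {V : Type} (w : V → ZMod (p ^ (e + 1)))
    (F : MvPolynomial V ℤ) :
    red p e (aeval w F) = aeval ((red p e).toAddMonoidHom.compLeft V w) F := by
  have h1 : (red p e).comp ((aeval w : MvPolynomial V ℤ →ₐ[ℤ] ZMod (p ^ (e + 1))) :
      MvPolynomial V ℤ →+* ZMod (p ^ (e + 1))) =
      ((aeval ((red p e).toAddMonoidHom.compLeft V w) : MvPolynomial V ℤ →ₐ[ℤ] ZMod (p ^ e)) :
        MvPolynomial V ℤ →+* ZMod (p ^ e)) := by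
    apply MvPolynomial.ringHom_ext
    · intro n
      simp
    · intro i
      simp
  exact congrArg (fun φ : MvPolynomial V ℤ →+* ZMod (p ^ e) => φ F) h1

theorem card_lift (p : ℕ) [Fact p.Prime] (e : ℕ) {V : Type} [Fintype V]
    (F : MvPolynomial V ℤ) :
    Nat.card {w : V → ZMod (p ^ (e + 1)) // red p e (aeval w F) = 0} =
      p ^ (Fintype.card V) * solCount p e F := by
  have hp : 0 < p := (Fact.out : p.Prime).pos
  set ψ := (red p e).toAddMonoidHom.compLeft V with hψ
  have hsurj : Function.Surjective ψ := by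
    intro w
    refine ⟨fun v => (red_surj p e (w v)).choose, ?_⟩
    funext v
    exact (red_surj p e (w v)).choose_spec
  have h0 : Nat.card ψ.ker = p ^ (Fintype.card V) := by
    have h1 := card_pre_surj ψ hsurj (fun _ => True)
    rw [Nat.card_congr (Equiv.subtypeUnivEquiv (fun _ => trivial)),
      Nat.card_congr (Equiv.subtypeUnivEquiv (fun _ => trivial)), Nat.card_fun, Nat.card_fun,
      Nat.card_zmod, Nat.card_zmod, Nat.card_eq_fintype_card] at h1
    have h3 : (p ^ (e + 1)) ^ Fintype.card V =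
        (p ^ e) ^ Fintype.card V * p ^ Fintype.card V := by
      rw [pow_succ, mul_pow]
    exact Nat.eq_of_mul_eq_mul_left (by positivity) (h1.symm.trans h3)
  have h2 := card_pre_surj ψ hsurj (fun w => aeval w F = 0)
  rw [h0] at h2
  unfold solCount
  rw [mul_comm, ← h2]
  refine Nat.card_congr (Equiv.subtypeEquivRight fun w => ?_)
  rw [aeval_red]

theorem sum_zero {B σ κ : Type} [CommRing B] [Fintype σ] [Fintype κ] [Fintype (σ → B)]
    [Fintype (κ → B)] (f : MvPolynomial σ ℤ) (c : ℕ) :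
    ∑ z : (σ → B) × (κ → B), ind (cf f z = 0) c =
      c * Nat.card {x : σ → B // aeval x f = 0} := by
  classical
  have h5 : ∀ z : (σ → B) × (κ → B), cf f z = 0 ↔ aeval z.1 f = 0 ∧ z.2 = 0 := by
    intro z
    constructor
    · intro h
      exact ⟨congrFun h none, funext fun k => congrFun h (some k)⟩
    · rintro ⟨ha, hb⟩
      funext o
      rcases o with _ | k
      · exact ha
      · exact congrFun hb k
  rw [Fintype.sum_prod_type]
  have h6 : ∀ x : σ → B, ∑ u : κ → B, ind (cf f (x, u) = 0) c =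
      if aeval x f = 0 then c else 0 := by
    intro x
    rw [Finset.sum_eq_single 0]
    · by_cases hx : aeval x f = 0
      · rw [if_pos hx, ind_pos ((h5 (x, 0)).2 ⟨hx, rfl⟩)]
      · rw [if_neg hx, ind_neg (fun h => hx ((h5 (x, 0)).1 h).1)]
    · intro u _ hu
      rw [ind_neg (fun h => hu ((h5 (x, u)).1 h).2)]
    · intro h
      exact absurd (Finset.mem_univ _) h
  rw [Finset.sum_congr rfl fun x _ => h6 x, ← Finset.sum_filter, Finset.sum_const, smul_eq_mul,
    mul_comm]
  congr 1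
  rw [Nat.card_eq_fintype_card, Fintype.card_subtype]

theorem c2 : S_C2 := by
  classical
  intro p _ σ κ _ _ f e
  have hp : p.Prime := Fact.out
  have : NeZero (p ^ (e + 1)) := ⟨(pow_pos hp.pos _).ne'⟩
  have h1 : solCount p (e + 1) (quad (cone f) κ) =
      ∑ z : (σ → ZMod (p ^ (e + 1))) × (κ → ZMod (p ^ (e + 1))),
        Nat.card {y : Option κ → ZMod (p ^ (e + 1)) // ∑ o, cf f z o * y o = 0} :=
    card_split f (fun x => x = 0)
  have h2 : Nat.card {w : Option σ ⊕ (κ ⊕ κ) → ZMod (p ^ (e + 1)) //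
      red p e (aeval w (quad (cone f) κ)) = 0} =
      ∑ z : (σ → ZMod (p ^ (e + 1))) × (κ → ZMod (p ^ (e + 1))),
        Nat.card {y : Option κ → ZMod (p ^ (e + 1)) // red p e (∑ o, cf f z o * y o) = 0} :=
    card_split f (fun x => red p e x = 0)
  have h3 := card_lift p e (quad (cone f) κ)
  have h4 : ∑ z : (σ → ZMod (p ^ (e + 1))) × (κ → ZMod (p ^ (e + 1))),
      ind (cf f z = 0) ((p ^ (e + 1)) ^ (Fintype.card (Option κ))) =
      (p ^ (e + 1)) ^ (Fintype.card (Option κ)) * solCount p (e + 1) f :=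
    sum_zero f _
  have h7 : Fintype.card (Option σ ⊕ (κ ⊕ κ)) = Fintype.card σ + 1 + 2 * Fintype.card κ := by
    rw [Fintype.card_sum, Fintype.card_sum, Fintype.card_option]; ring
  have h8 : p * solCount p (e + 1) (quad (cone f) κ) =
      ∑ z : (σ → ZMod (p ^ (e + 1))) × (κ → ZMod (p ^ (e + 1))),
        (Nat.card {y : Option κ → ZMod (p ^ (e + 1)) // red p e (∑ o, cf f z o * y o) = 0} +
        (p - 1) * ind (cf f z = 0) ((p ^ (e + 1)) ^ (Fintype.card (Option κ)))) := by
    rw [h1, Finset.mul_sum]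
    exact Finset.sum_congr rfl fun z _ => claim p e (cf f z)
  rw [h8, Finset.sum_add_distrib, ← Finset.mul_sum, h4, ← h2, h3, h7, Fintype.card_option,
    ← pow_mul, mul_assoc]

end Pool.Agent.N935.CU
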