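import Pool.Agent.N124.CU.Stm2

set_option autoImplicit false

/-!
# Project CU (helper124), task SYM: continuity and symmetries of the norm
-/

namespace Pool.Agent.N935.CU.SYM

open Filter Topology ComplexConjugate
open Pool.Agent.N124.CU

theorem t_cont : Pool.Agent.N124.CU.S_cont := by
  intro x w h3 h2
  have key : ContinuousAt (fun w : ℂ => (arm3 x).Arm w
      (fun u3 v3 => (arm2 x).Arm w (fun u2 v2 => Fx x u3 v3 u2 v2))) w := by
    refine Par.Arm_cont2 (P := arm3 x) (X := ℂ) (w := fun w => w)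
      (f := fun w u3 v3 => (arm2 x).Arm w (fun u2 v2 => Fx x u3 v3 u2 v2)) continuousAt_id h3 ?_
    intro p ω _ _
    refine Par.Arm_cont2 (P := arm2 x) (X := ℂ × ℂ × ℂ) (w := fun y => y.1)
      (f := fun y u2 v2 => Fx x y.2.1 y.2.2 u2 v2) continuousAt_fst h2 ?_
    intro p' ω' _ _
    have hc : Continuous (fun z : (ℂ × ℂ × ℂ) × ℂ × ℂ =>
        Fx x z.1.2.1 z.1.2.2 z.2.1 z.2.2) := by
      unfold Fx FF
      fun_prop
    exact hc.continuousAt
  exact key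

theorem re3 (x : Fin 13 → ℝ) : (arm3 x).Re := by
  constructor <;> simp [arm3]

theorem re2 (x : Fin 13 → ℝ) : (arm2 x).Re := by
  constructor <;> simp [arm2]

theorem Fx_conj (x : Fin 13 → ℝ) (u3 v3 u2 v2 : ℂ) :
    conj (Fx x (conj u3) (conj v3) (conj u2) (conj v2)) = Fx x u3 v3 u2 v2 := by
  simp [Fx, FF]

theorem Phi_conj (x : Fin 13 → ℝ) (w : ℝ) (u v : ℂ) :
    conj ((arm2 x).Arm w (fun u2 v2 => Fx x (conj u) (conj v) u2 v2)) =
      (arm2 x).Arm w (fun u2 v2 => Fx x u v u2 v2) := by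
  rw [Par.Arm_conj (re2 x), Complex.conj_ofReal]
  simp only [Fx_conj]

theorem t_conj : Pool.Agent.N124.CU.S_conj := by
  intro x w
  unfold NN
  rw [Par.Arm_conj (re3 x), Complex.conj_ofReal]
  simp only [Phi_conj]

theorem Fx_inv (x : Fin 13 → ℝ) (h0 : x 0 ≠ 0) (u3 v3 u2 v2 : ℂ) :
    Fx x (v3 / x 0) (x 0 * u3) (v2 / x 0) (x 0 * u2) = Fx x u3 v3 u2 v2 := by
  have h : (x 0 : ℂ) ≠ 0 := by exact_mod_cast h0
  unfold Fx FF
  field_simp
  ring

theorem inv3 (x : Fin 13 → ℝ) (w : ℂ) (h0 : x 0 ≠ 0) (h1 : x 1 ≠ 0) (hr : (arm3 x).Reg w)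
    (f : ℂ → ℂ → ℂ) : (arm3 x).Arm (x 1 / (x 0 * w)) f =
      (arm3 x).Arm w (fun u v => f (v / x 0) (x 0 * u)) :=
  Par.Arm_inv (P := arm3 x) hr (by simpa [arm3] using h0) (by simpa [arm3] using h1) f

theorem inv2 (x : Fin 13 → ℝ) (w : ℂ) (h0 : x 0 ≠ 0) (h1 : x 1 ≠ 0) (hr : (arm2 x).Reg w)
    (f : ℂ → ℂ → ℂ) : (arm2 x).Arm (x 1 / (x 0 * w)) f =
      (arm2 x).Arm w (fun u v => f (v / x 0) (x 0 * u)) :=
  Par.Arm_inv (P := arm2 x) hr (by simpa [arm2] using h0) (by simpa [arm2] using h1) f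

theorem t_inv : Pool.Agent.N124.CU.S_inv := by
  intro x w h0 h1 h3 h2
  unfold NN
  rw [inv3 x w h0 h1 h3]
  simp only [inv2 x w h0 h1 h2, Fx_inv x h0]

theorem t_sq : Pool.Agent.N124.CU.S_sq := by
  intro x w h0 h1 hw h3 h2
  have c0 : (x 0 : ℂ) ≠ 0 := by exact_mod_cast h0
  have c1 : (x 1 : ℂ) ≠ 0 := by exact_mod_cast h1
  have w0 : (w : ℂ) ≠ 0 := h3.w0
  have hwc : (x 0 : ℂ) * (w : ℂ) ^ 2 = x 1 := by exact_mod_cast hw
  have hww : (x 1 : ℂ) / (x 0 * w) = w := by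
    rw [← hwc]; field_simp
  let Φ : ℂ → ℂ → ℂ := fun u v => (arm2 x).Arm w (fun u2 v2 => Fx x u v u2 v2)
  have hΦ : ∀ u v, Φ (v / x 0) (x 0 * u) = Φ u v := by
    intro u v
    have e := inv2 x w h0 h1 h2 (fun u2 v2 => Fx x (v / x 0) (x 0 * u) u2 v2)
    rw [hww] at e
    show (arm2 x).Arm w _ = (arm2 x).Arm w _
    rw [e]
    simp only [Fx_inv x h0]
  have hΦc : ∀ u v, conj (Φ (conj u) (conj v)) = Φ u v := fun u v => Phi_conj x w u v
  obtain ⟨r, s, hb, hc⟩ := exists_roots ((arm3 x).qb w) ((arm3 x).qc w) h3.eta0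
  have hr : (arm3 x).RQ w r := root_left hb hc
  have hs : (arm3 x).RQ w s := root_right hb hc
  have r0 := h3.p0 hr
  have eeta : (arm3 x).eta w = x 0 * (1 + w) := by
    show (x 0 : ℂ) + x 1 / w = _
    rw [← hwc]; field_simp
  have hga : (arm3 x).ga = x 5 := rfl
  have hde : (arm3 x).de = x 0 := rfl
  have hsr : s = (arm3 x).ga / ((arm3 x).de * r) := by
    have hc' : (1 + (w : ℂ)) * (arm3 x).ga = (arm3 x).eta w * r * s := hc
    rw [eeta] at hc'
    have h1w : 1 + (w : ℂ) ≠ 0 := h3.w1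
    rw [hde, eq_div_iff (mul_ne_zero c0 r0)]
    apply mul_left_cancel₀ h1w
    linear_combination (-1) * hc'
  have hIs : (arm3 x).Inner s Φ = (arm3 x).Inner r Φ := by
    rw [hsr, Par.Inner_inv r0 (h3.p1 r hr) (h3.pa r hr) (by rw [hde]; exact c0) h3.al0 h3.ga0]
    congr 1
    funext u v
    exact hΦ u v
  have hNN : NN x w = (arm3 x).Inner r Φ ^ 2 := by
    show (arm3 x).Arm w Φ = _
    unfold Par.Arm
    rw [QP_roots h3.eta0 hb hc, hIs]
    ring
  have hcr : (arm3 x).Inner (conj r) Φ = (arm3 x).Inner r Φ := by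
    have hq : (arm3 x).eta w * (conj r) ^ 2 + (arm3 x).qb w * conj r + (arm3 x).qc w = 0 := by
      have h := congrArg conj hr
      have i1 : conj ((arm3 x).eta w) = (arm3 x).eta w := by
        simp [Par.eta, (re3 x).de, (re3 x).a1]
      have i2 : conj ((arm3 x).qb w) = (arm3 x).qb w := by
        simp [Par.qb, i1, (re3 x).ga, (re3 x).bp]
      have i3 : conj ((arm3 x).qc w) = (arm3 x).qc w := by
        simp [Par.qc, (re3 x).ga]
      simpa [i1, i2, i3] using h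
    rcases root_cases h3.eta0 hb hc hq with h | h
    · rw [h]
    · rw [h, hIs]
  have hreal : conj ((arm3 x).Inner r Φ) = (arm3 x).Inner r Φ := by
    rw [Par.Inner_conj (re3 x)]
    simp only [hΦc]
    exact hcr
  obtain ⟨H, hH⟩ := Complex.conj_eq_iff_real.mp hreal
  exact ⟨H, by rw [hNN, hH]⟩

end Pool.Agent.N935.CU.SYM
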